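import Pool.Agent.L7h25.AN.Stm
import Pool.Agent.H302R6.AutB

/-!
# Semidirect products with kernel `A_n` (statement `St_grp` of the project AN)
-/

set_option autoImplicit false

namespace Pool.Agent.L7h10.AN

open Equiv Equiv.Perm

/-- Automorphisms of `A_5` map 3-cycles to 3-cycles. -/
lemma three_five (β : MulAut (alternatingGroup (Fin 5)))
    (g : alternatingGroup (Fin 5)) (hg : (g : Perm (Fin 5)).IsThreeCycle) :
    ((β g : alternatingGroup (Fin 5)) : Perm (Fin 5)).IsThreeCycle := by
  have ho : orderOf ((β g : alternatingGroup (Fin 5)) : Perm (Fin 5)) = 3 := by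
    rw [Subgroup.orderOf_coe, MulEquiv.orderOf_eq, ← Subgroup.orderOf_coe]
    exact hg.orderOf
  obtain ⟨k, hk⟩ := cycleType_prime_order (σ := ((β g : alternatingGroup (Fin 5)) : Perm (Fin 5)))
    (by rw [ho]; exact Nat.prime_three)
  rw [ho] at hk
  rcases Nat.eq_zero_or_pos k with h0 | h0
  · rw [h0] at hk
    exact hk
  exfalso
  have h1 := sum_cycleType ((β g : alternatingGroup (Fin 5)) : Perm (Fin 5))
  rw [hk, Multiset.sum_replicate, smul_eq_mul] at h1
  have h2 := Finset.card_le_univ ((β g : alternatingGroup (Fin 5)) : Perm (Fin 5)).support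
  rw [← h1, Fintype.card_fin] at h2
  omega

/-- Automorphisms of `A_n` come from permutations. -/
lemma aut_perm (n : ℕ) (h5 : 5 ≤ n) (h6 : n ≠ 6) (β : MulAut (alternatingGroup (Fin n))) :
    ∃ σ : Perm (Fin n), ∀ g : alternatingGroup (Fin n),
      ((β g : alternatingGroup (Fin n)) : Perm (Fin n)) = σ * g * σ⁻¹ := by
  rcases Nat.lt_or_ge n 7 with h | h
  · obtain rfl : n = 5 := by omega
    exact Pool.Agent.H302R6.exists_perm (by simp) β (three_five β)
  · exact Pool.Agent.H302R6.aut_alt (by simpa using h) β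

/-- Only the identity commutes with the 3-cycles. -/
lemma centralizes (n : ℕ) (h5 : 5 ≤ n) (σ : Perm (Fin n))
    (h : ∀ g : alternatingGroup (Fin n), σ * (g : Perm (Fin n)) * σ⁻¹ = g) : σ = 1 := by
  classical
  ext1 p
  rw [Perm.one_apply]
  by_contra hp
  obtain ⟨c, hc⟩ : ∃ c, c ∉ ({p, σ p} : Finset (Fin n)) := by
    by_contra hcon
    push Not at hcon
    have : (Finset.univ : Finset (Fin n)).card ≤ ({p, σ p} : Finset (Fin n)).card :=
      Finset.card_le_card fun x _ => hcon x
    have h2 := Finset.card_le_two (a := p) (b := σ p)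
    rw [Finset.card_univ, Fintype.card_fin] at this
    omega
  obtain ⟨d, hd⟩ : ∃ d, d ∉ ({p, σ p, c} : Finset (Fin n)) := by
    by_contra hcon
    push Not at hcon
    have : (Finset.univ : Finset (Fin n)).card ≤ ({p, σ p, c} : Finset (Fin n)).card :=
      Finset.card_le_card fun x _ => hcon x
    have h2 := Finset.card_le_three (a := p) (b := σ p) (c := c)
    rw [Finset.card_univ, Fintype.card_fin] at this
    omega
  simp only [Finset.mem_insert, Finset.mem_singleton, not_or] at hc hd
  have h3 : (swap p c * swap p d).IsThreeCycle :=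
    isThreeCycle_swap_mul_swap_same (Ne.symm hc.1) (Ne.symm hd.1) (Ne.symm hd.2.2)
  have h4 := h ⟨_, h3.mem_alternatingGroup⟩
  have h5 : σ * (swap p c * swap p d) = (swap p c * swap p d) * σ := by
    have := congrArg (· * σ) h4
    simpa [mul_assoc] using this
  have h6 := congrArg (fun f : Perm (Fin n) => f p) h5
  simp only [Perm.mul_apply, swap_apply_left] at h6
  rw [swap_apply_of_ne_of_ne (a := p) (b := c) (x := d) hd.1 hd.2.2,
    swap_apply_of_ne_of_ne (a := p) (b := d) (x := σ p) hp (Ne.symm hd.2.1),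
    swap_apply_of_ne_of_ne (a := p) (b := c) (x := σ p) hp (Ne.symm hc.2)] at h6
  exact hd.1 (σ.injective h6)

/-- Conjugation identifies `S_n` with the automorphism group of `A_n`. -/
noncomputable def E (n : ℕ) (h5 : 5 ≤ n) (h6 : n ≠ 6) :
    Perm (Fin n) ≃* MulAut (alternatingGroup (Fin n)) :=
  MulEquiv.ofBijective (MulAut.conjNormal (H := alternatingGroup (Fin n))) (by
    constructor
    · rw [injective_iff_map_eq_one]
      intro σ hσ
      apply centralizes n h5 σ
      intro g
      have := congrArg (fun f : MulAut (alternatingGroup (Fin n)) => ((f g : alternatingGroup (Fin n)) :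
        Perm (Fin n))) hσ
      simpa [MulAut.conjNormal_apply] using this
    · intro β
      obtain ⟨σ, hσ⟩ := aut_perm n h5 h6 β
      refine ⟨σ, ?_⟩
      apply MulEquiv.ext
      intro g
      apply Subtype.ext
      rw [MulAut.conjNormal_apply, hσ])

lemma E_apply (n : ℕ) (h5 : 5 ≤ n) (h6 : n ≠ 6) (σ : Perm (Fin n)) (g : alternatingGroup (Fin n)) :
    ((E n h5 h6 σ g : alternatingGroup (Fin n)) : Perm (Fin n)) = σ * g * σ⁻¹ :=
  MulAut.conjNormal_apply σ g

lemma E_alt (n : ℕ) (h5 : 5 ≤ n) (h6 : n ≠ 6) (a : alternatingGroup (Fin n)) :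
    E n h5 h6 a = MulAut.conj a := by
  apply MulEquiv.ext
  intro g
  apply Subtype.ext
  rw [E_apply]
  rfl

lemma compl (n : ℕ) (h5 : 5 ≤ n) (h6 : n ≠ 6) :
    ∃ T : Subgroup (MulAut (alternatingGroup (Fin n))),
      IsCompl T (MulAut.conj : alternatingGroup (Fin n) →* _).range := by
  let i0 : Fin n := ⟨0, by omega⟩
  let i1 : Fin n := ⟨1, by omega⟩
  have h01 : i0 ≠ i1 := by
    intro h
    have := congrArg Fin.val h
    simp [i0, i1] at this
  set s : Perm (Fin n) := swap i0 i1 with hs
  have hss : s * s = 1 := swap_mul_self _ _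
  have hsg : Perm.sign s = -1 := Perm.sign_swap h01
  refine ⟨(Subgroup.zpowers s).map (E n h5 h6).toMonoidHom, ?_, ?_⟩
  · rw [disjoint_iff, eq_bot_iff]
    rintro x ⟨⟨y, hy, rfl⟩, ⟨a, ha⟩⟩
    have h1 : E n h5 h6 y = E n h5 h6 a := by
      rw [E_alt]; exact ha.symm
    have h2 : y = a := (E n h5 h6).injective h1
    have h3 : Perm.sign y = 1 := by
      rw [h2]; exact mem_alternatingGroup.mp a.2
    have h4 : y = 1 ∨ y = s := by
      obtain ⟨k, hk⟩ := Subgroup.mem_zpowers_iff.mp hy
      rcases Int.even_or_odd' k with ⟨m, hm | hm⟩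
      · left
        rw [← hk, hm, zpow_mul, zpow_two, hss, one_zpow]
      · right
        rw [← hk, hm, zpow_add, zpow_mul, zpow_two, hss, one_zpow, one_mul, zpow_one]
    rcases h4 with h4 | h4
    · rw [h4]
      simp
    · rw [h4, hsg] at h3
      exact absurd h3 (by decide)
  · rw [codisjoint_iff, eq_top_iff]
    intro x _
    obtain ⟨σ, rfl⟩ := (E n h5 h6).surjective x
    rcases Int.units_eq_one_or (Perm.sign σ) with h | h
    · apply Subgroup.mem_sup_right
      exact ⟨⟨σ, mem_alternatingGroup.mpr h⟩, (E_alt n h5 h6 ⟨σ, _⟩).symm⟩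
    · have h1 : σ = s * (s * σ) := by rw [← mul_assoc, hss, one_mul]
      rw [h1, map_mul]
      apply Subgroup.mul_mem_sup
      · exact ⟨s, Subgroup.mem_zpowers s, rfl⟩
      · have h2 : s * σ ∈ alternatingGroup (Fin n) := by
          rw [mem_alternatingGroup, Perm.sign_mul, h, hsg]; decide
        exact ⟨⟨s * σ, h2⟩, (E_alt n h5 h6 ⟨s * σ, h2⟩).symm⟩

/-- the isomorphism -/
noncomputable def theta (n : ℕ) (h5 : 5 ≤ n) (h6 : n ≠ 6) {Γ : Type} [Group Γ]
    (β : Γ →* MulAut (alternatingGroup (Fin n))) :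
    (alternatingGroup (Fin n)) ⋊[β] Γ ≃*
      Pool.Agent.L7h25.AN.SgnFib n (Perm.sign.comp ((E n h5 h6).symm.toMonoidHom.comp β)) where
  toFun x := ⟨(⟨1, (x.left : Perm (Fin n)) * (E n h5 h6).symm (β x.right)⟩, x.right), by
    show Perm.sign ((x.left : Perm (Fin n)) * (E n h5 h6).symm (β x.right)) =
      Perm.sign ((E n h5 h6).symm (β x.right))
    rw [map_mul, mem_alternatingGroup.mp x.left.2, one_mul]⟩
  invFun z := ⟨⟨z.1.1.right * ((E n h5 h6).symm (β z.1.2))⁻¹, by
    have h : Perm.sign z.1.1.right = Perm.sign ((E n h5 h6).symm (β z.1.2)) := z.2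
    rw [mem_alternatingGroup, map_mul, map_inv, h, mul_inv_cancel]⟩, z.1.2⟩
  left_inv x := by
    apply SemidirectProduct.ext
    · apply Subtype.ext
      simp
    · rfl
  right_inv z := by
    apply Subtype.ext
    apply Prod.ext
    · apply SemidirectProduct.ext
      · exact Subsingleton.elim _ _
      · simp
    · rfl
  map_mul' x y := by
    apply Subtype.ext
    apply Prod.ext
    · apply SemidirectProduct.ext
      · exact Subsingleton.elim _ _
      · show ((x.left * β x.right y.left : alternatingGroup (Fin n)) : Perm (Fin n)) *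
            (E n h5 h6).symm (β (x.right * y.right)) =
          ((x.left : Perm (Fin n)) * (E n h5 h6).symm (β x.right)) *
            ((y.left : Perm (Fin n)) * (E n h5 h6).symm (β y.right))
        have h1 : ((β x.right y.left : alternatingGroup (Fin n)) : Perm (Fin n)) =
            (E n h5 h6).symm (β x.right) * y.left * ((E n h5 h6).symm (β x.right))⁻¹ := by
          rw [← E_apply n h5 h6, MulEquiv.apply_symm_apply]
        rw [Subgroup.coe_mul, h1, map_mul, map_mul]
        group
    · rfl

/-- Statement GRP. -/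
theorem st_grp : Pool.Agent.L7h25.AN.St_grp := by
  intro n h5 h6
  refine ⟨alternatingGroup.isSimpleGroup (by simpa using h5),
    alternatingGroup.center_eq_bot (by simp; omega), compl n h5 h6, ?_⟩
  intro Γ _ β
  exact ⟨_, theta n h5 h6 β, fun x => rfl⟩

end Pool.Agent.L7h10.AN
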